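import Mathlib
import Pool.Agent.H.MP_c8d2d2_an.A

open Finset

namespace Pool.Agent.Results.MP_c8d2d2_an.Holds

/-- The periodic Green's function of `-d²/dx²` on `[0,1]`. -/
noncomputable def G (x y : ℝ) : ℝ := |x - y| ^ 2 / 2 - |x - y| / 2 + 1 / 12

/-- `i 1, …, i (3n)` is an arrangement (types `0,1,2` for A, B, C), and `i 0 = i (3n)`. -/
def IsArr (n : ℕ) (i : ℕ → Fin 3) : Prop :=
  i 0 = i (3 * n) ∧ ∀ a, #{k ∈ Icc 1 (3 * n) | i k = a} = n

/-- The centre `x_k` of the `k`-th ball. -/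
noncomputable def pos (n : ℕ) (ω : Fin 3 → ℝ) (i : ℕ → Fin 3) (k : ℕ) : ℝ :=
  ∑ l ∈ range k, (ω (i l) + ω (i (l + 1))) / (2 * n)

/-- The energy of an arrangement. -/
noncomputable def U (n : ℕ) (ω : Fin 3 → ℝ) (f : Matrix (Fin 3) (Fin 3) ℝ) (i : ℕ → Fin 3) : ℝ :=
  1 / 2 * ∑ k ∈ Icc 1 (3 * n), ∑ m ∈ Icc 1 (3 * n), f (i k) (i m) * G (pos n ω i k) (pos n ω i m)

/-- The cyclic arrangement ABC⋯ABC. -/
def cyclic (k : ℕ) : Fin 3 := Fin.ofNat 3 (k + 2)

open Pool.Agent.H.MP_c8d2d2_an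

lemma sum_Icc (N : ℕ) (g : ℕ → ℝ) : ∑ k ∈ Icc 1 N, g k = ∑ k ∈ range N, g (k + 1) := by
  rw [range_eq_Ico, sum_Ico_add' g 0 N 1]; rfl

lemma card_Icc (N : ℕ) (i : ℕ → Fin 3) (a : Fin 3) :
    #{k ∈ Icc 1 N | i k = a} = #{k ∈ range N | i (k + 1) = a} := by
  have := sum_Icc N fun k => if i k = a then 1 else 0
  simp only [sum_boole] at this
  exact_mod_cast this

lemma sum_type {n : ℕ} {j : ℕ → Fin 3} (hj : ∀ a, #{k ∈ range (3 * n) | j k = a} = n)
    (φ : Fin 3 → ℝ) : ∑ k ∈ range (3 * n), φ (j k) = n * ∑ a, φ a := by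
  rw [← sum_fiberwise (range (3 * n)) j, mul_sum]
  refine sum_congr rfl fun a _ => ?_
  rw [sum_congr rfl fun k hk => by rw [(mem_filter.1 hk).2], sum_const, hj, nsmul_eq_mul]

lemma rank_one {n : ℕ} (ω q : Fin 3 → ℝ) (hω : ∀ a, 0 < ω a) (hq : ∑ a, q a = 0) (i : ℕ → Fin 3)
    (hj : ∀ a, #{k ∈ range (3 * n) | i (k + 1) = a} = n) :
    ∑ k ∈ range (3 * n), ∑ m ∈ range (3 * n), q (i (k + 1)) * q (i (m + 1)) *
      G (pos n ω i (k + 1)) (pos n ω i (m + 1)) =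
    ∑ k ∈ range (3 * n), ω (i (k + 1)) / n * ((∑ l ∈ range k, q (i (l + 1)) + q (i (k + 1)) / 2) ^ 2
      + q (i (k + 1)) ^ 2 / 4) - (∑ k ∈ range (3 * n), ω (i (k + 1)) / n *
        (∑ l ∈ range k, q (i (l + 1)) + q (i (k + 1)) / 2)) ^ 2 := by
  obtain ⟨h1, h2⟩ := energy (fun k => q (i (k + 1))) (fun k => ω (i (k + 1)) / (2 * n))
    (fun k => pos n ω i (k + 1)) (fun k => by have := hω (i (k + 1)); positivity)
    (fun k => by simp only [pos, sum_range_succ _ (k + 1), add_div]) (3 * n)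
  have h0 : ∑ k ∈ range (3 * n), q (i (k + 1)) = 0 := by
    rw [sum_type (j := fun k => i (k + 1)) hj, hq, mul_zero]
  have e : ∀ x : ℝ, 2 * (x / (2 * n)) = x / n := fun x => by ring
  simp only [h0, e, zero_mul, zero_sub, sub_zero] at h1 h2
  rw [← h2, ← neg_sq, ← h1]
  set X := fun k => pos n ω i (k + 1)
  set Q := fun k => q (i (k + 1))
  have : ∀ k m, Q k * Q m * G (X k) (X m) = (Q k * X k ^ 2 / 2) * Q m + Q k * (Q m * X m ^ 2 / 2)
      - (Q k * X k) * (Q m * X m) - Q k * Q m * |X k - X m| / 2 + Q k * (Q m / 12) :=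
    fun k m => by rw [G, sq_abs]; ring
  change ∑ k ∈ _, ∑ m ∈ _, Q k * Q m * G (X k) (X m) = -(∑ k ∈ _, ∑ m ∈ _, Q k * Q m *
    |X k - X m|) / 2 - (∑ k ∈ _, Q k * X k) ^ 2
  change ∑ k ∈ _, Q k = 0 at h0
  simp only [this, sum_add_distrib, sum_sub_distrib, ← mul_sum, ← sum_mul, h0, ← sum_div]
  ring

lemma cyc_count (n : ℕ) (a : Fin 3) : #{k ∈ range (3 * n) | cyclic (k + 1) = a} = n := by
  induction n with
  | zero => simp
  | succ n ih =>
    have h : ∀ r, cyclic (3 * n + r + 1) = Fin.ofNat 3 r := fun r => by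
      simp only [cyclic, Fin.ofNat, Fin.mk.injEq]; omega
    have h0 := h 0
    rw [card_filter] at *
    rw [mul_add, mul_one, sum_range_succ, sum_range_succ, sum_range_succ, ih, h 1, h 2]
    rw [add_zero] at h0
    rw [h0]
    fin_cases a <;> rfl

lemma cyc_mid (q : Fin 3 → ℝ) (hq : q 0 + q 1 + q 2 = 0) (k : ℕ) :
    ∑ l ∈ range k, q (cyclic (l + 1)) + q (cyclic (k + 1)) / 2 = mu q (cyclic (k + 1)) := by
  induction k with
  | zero => simp [cyclic, mu]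
  | succ k ih =>
    have : cyclic (k + 1 + 1) = cyclic (k + 1) + 1 := by
      simp only [cyclic, Fin.ofNat, Fin.ext_iff, Fin.val_add, Fin.val_one]; omega
    rw [sum_range_succ, this]
    generalize cyclic (k + 1) = z at *
    fin_cases z <;> simp [mu] at ih ⊢ <;> linarith

theorem result (n : ℕ) (hn : 0 < n) (f : Matrix (Fin 3) (Fin 3) ℝ) (hf : f.PosSemidef)
    (h1 : f.mulVec ![1, 1, 1] = 0) (ω : Fin 3 → ℝ) (hω : ∀ a, 0 < ω a) (hs : ∑ a, ω a = 1) :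
    IsArr n cyclic ∧ ∀ i, IsArr n i → U n ω f cyclic ≤ U n ω f i := by
  refine ⟨⟨?_, fun a => by rw [card_Icc, cyc_count]⟩, fun i ⟨_, hi⟩ => ?_⟩
  · simp only [cyclic, Fin.ofNat, Fin.mk.injEq]; omega
  simp only [card_Icc] at hi
  have hn' : (0 : ℝ) < n := by exact_mod_cast hn
  open scoped MatrixOrder in
  obtain ⟨B, rfl⟩ := CStarAlgebra.nonneg_iff_eq_star_mul_self.mp hf.nonneg
  have hB : ∀ a b, (star B * B) a b = ∑ r, B r a * B r b := fun a b => by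
    simp [Matrix.mul_apply]
  have hq : ∀ r, B r 0 + B r 1 + B r 2 = 0 := by
    have h := fun a => congrFun h1 a
    have h0 := h 0
    have h2 := h 1
    have h3 := h 2
    simp only [Matrix.mulVec, dotProduct, hB, Fin.sum_univ_three, Matrix.cons_val_zero,
      Matrix.cons_val_one, Matrix.cons_val, Pi.zero_apply] at h0 h2 h3
    have : (B 0 0 + B 0 1 + B 0 2) ^ 2 + (B 1 0 + B 1 1 + B 1 2) ^ 2 +
      (B 2 0 + B 2 1 + B 2 2) ^ 2 = 0 := by linear_combination h0 + h2 + h3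
    intro r
    fin_cases r <;> simp <;> nlinarith [sq_nonneg (B 0 0 + B 0 1 + B 0 2),
      sq_nonneg (B 1 0 + B 1 1 + B 1 2), sq_nonneg (B 2 0 + B 2 1 + B 2 2)]
  have sw : ∀ i : ℕ → Fin 3, U n ω (star B * B) i = 1 / 2 * ∑ r, ∑ k ∈ range (3 * n),
      ∑ m ∈ range (3 * n), B r (i (k + 1)) * B r (i (m + 1)) *
        G (pos n ω i (k + 1)) (pos n ω i (m + 1)) := fun i => by
    simp only [U, sum_Icc, hB, sum_mul]
    rw [sum_comm (s := univ)]
    congr 1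
    exact sum_congr rfl fun k _ => sum_comm
  rw [sw, sw]
  refine mul_le_mul_of_nonneg_left (sum_le_sum fun r _ => ?_) (by norm_num)
  set q := B r
  have hq' : ∑ a, q a = 0 := by rw [Fin.sum_univ_three]; exact hq r
  rw [rank_one ω q hω hq' _ (cyc_count n), rank_one ω q hω hq' _ hi]
  simp only [cyc_mid q (hq r), mul_add, sum_add_distrib]
  rw [sum_type (j := fun k => cyclic (k + 1)) (cyc_count n) fun a => ω a / n * mu q a ^ 2,
    sum_type (j := fun k => cyclic (k + 1)) (cyc_count n) fun a => ω a / n * (q a ^ 2 / 4),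
    sum_type (j := fun k => cyclic (k + 1)) (cyc_count n) fun a => ω a / n * mu q a,
    sum_type (j := fun k => i (k + 1)) hi fun a => ω a / n * (q a ^ 2 / 4), ← sum_add_distrib]
  simp only [← mul_add]
  set M := fun k => ∑ l ∈ range k, q (i (l + 1)) + q (i (k + 1)) / 2
  change _ ≤ ∑ k ∈ _, _ * M k ^ 2 + _ - (∑ k ∈ _, _ * M k) ^ 2
  set t := ∑ k ∈ range (3 * n), ω (i (k + 1)) / n * M k with ht
  let R := fun x => ∑ k ∈ range (3 * n) with i (k + 1) = x, |M k - t|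
  have hR : ∀ x y, |mu q y - mu q x| * n ≤ R x + R y :=
    comb n (fun k => i (k + 1)) hi q (hq r) t
  obtain ⟨z, hz⟩ := Finite.exists_max fun x => mu q x - R x / n
  set σ := mu q z - R z / n
  have hσ : ∀ x, |mu q x - σ| * n ≤ R x := fun x => by
    have a1 := hz x
    have a2 := (le_div_iff₀ hn').2 (hR x z)
    rw [← le_div_iff₀ hn', abs_le]
    rw [add_div, abs_le] at a2
    constructor <;> simp only [σ] at * <;> linarith
  have s1 : ∑ k ∈ range (3 * n), ω (i (k + 1)) / n = 1 := by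
    rw [sum_type (j := fun k => i (k + 1)) hi fun a => ω a / n, ← sum_div, hs]; field_simp
  have e1 : ∑ k ∈ range (3 * n), ω (i (k + 1)) / n * (M k - t) ^ 2 =
      ∑ k ∈ range (3 * n), ω (i (k + 1)) / n * M k ^ 2 - t ^ 2 := by
    have : ∀ a b : ℝ, a * (b - t) ^ 2 = a * b ^ 2 - 2 * t * (a * b) + t ^ 2 * a := fun a b => by ring
    simp only [this, sum_add_distrib, sum_sub_distrib, ← mul_sum, s1, ← ht]
    ring
  have e2 : ∑ x, ω x * (mu q x - σ) ^ 2 ≤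
      ∑ k ∈ range (3 * n), ω (i (k + 1)) / n * (M k - t) ^ 2 := by
    rw [← sum_fiberwise (range (3 * n)) fun k => i (k + 1)]
    refine sum_le_sum fun x _ => ?_
    rw [sum_congr rfl fun k hk => by rw [(mem_filter.1 hk).2], ← mul_sum, div_mul_eq_mul_div,
      mul_div_assoc]
    refine mul_le_mul_of_nonneg_left ((le_div_iff₀ hn').2 ?_) (hω x).le
    have a1 : ∑ k ∈ range (3 * n) with i (k + 1) = x, (2 * |mu q x - σ| * |M k - t| -
        (mu q x - σ) ^ 2) ≤ ∑ k ∈ range (3 * n) with i (k + 1) = x, (M k - t) ^ 2 :=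
      sum_le_sum fun k _ => by
        nlinarith [sq_nonneg (|mu q x - σ| - |M k - t|), sq_abs (mu q x - σ), sq_abs (M k - t)]
    rw [sum_sub_distrib, ← mul_sum, sum_const, hi, nsmul_eq_mul] at a1
    nlinarith [mul_le_mul_of_nonneg_left (hσ x) (abs_nonneg (mu q x - σ)), sq_abs (mu q x - σ)]
  have e3 : ∀ φ : Fin 3 → ℝ, n * ∑ a, ω a / n * φ a = ∑ a, ω a * φ a := fun φ => by
    rw [mul_sum]; exact sum_congr rfl fun a _ => by field_simp
  rw [mul_add, e3 (mu q), e3 fun a => mu q a ^ 2]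
  rw [e1] at e2
  simp only [Fin.sum_univ_three] at e2 hs ⊢
  have e4 : ω 0 * (mu q 0 - σ) ^ 2 + ω 1 * (mu q 1 - σ) ^ 2 + ω 2 * (mu q 2 - σ) ^ 2 =
      ω 0 * mu q 0 ^ 2 + ω 1 * mu q 1 ^ 2 + ω 2 * mu q 2 ^ 2 -
        (ω 0 * mu q 0 + ω 1 * mu q 1 + ω 2 * mu q 2) ^ 2 +
        (ω 0 * mu q 0 + ω 1 * mu q 1 + ω 2 * mu q 2 - σ) ^ 2 := by
    linear_combination σ ^ 2 * hs
  linarith [sq_nonneg (ω 0 * mu q 0 + ω 1 * mu q 1 + ω 2 * mu q 2 - σ)]

end Pool.Agent.Results.MP_c8d2d2_an.Holds
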